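import Pool.Agent.V5helper78.EM.BrdI

/-!
# Boundary rigidity for metrics which are isotropic at a boundary point

Let `p` be a boundary point of the closed unit ball `M` of `ℝ^n`, `n ≥ 3`. Two simple metrics `g`, `g'` of `M`
with the same boundary distances are isometric by a diffeomorphism which fixes the boundary if both have the
form `dr² + φ² dθ²` in polar coordinates at `p`, with functions `φ` of `(r, θ)`, or, more generally, if they are
proportional on the geodesic spheres around `p` for the identification of the points with the same polar
coordinates.

The diffeomorphism is the map `ψ = exp'_p ∘ L ∘ exp_p⁻¹`, where `L` is the linear isometry of the tangent spaces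
at `p` which is given by the boundary distances. By the lemma of Gauss, `ψ^*g'` is equal to `g` in the radial
direction, so it arises from `g` by multiplication with a positive function on the radial hyperplanes, whose
dimension `n - 1` is at least two. So the theorem on maps with a pull-back in the cone applies to `ψ`.
-/

open Set Metric
open scoped ContDiff
open Pool.Agent.Q176.SM Pool.Agent.V5helper78.ML

namespace Pool.Agent.Results.MP_07cd05_gt.IsotropicAtBoundaryPoint

/-- Let `n ≥ 3` and let `g`, `g'` be simple metrics on the closed unit ball `M` of `ℝ^n` with the same boundary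
distances. Let `p` be a boundary point such that `g` and `g'` are both isotropic at `p`, or such that `g` and
`g'` are proportional on the geodesic spheres around `p`. Then there is a diffeomorphism `ψ` of `M` with
`ψ(x) = x` for all `x` in `∂M` and `ψ^*g' = g`. -/
theorem result {n : ℕ} (hn : 3 ≤ n) {g g' : E n → E n → E n → ℝ} (hg : IsSimple g)
    (hg' : IsSimple g') (hd : ∀ x ∈ bdM n, ∀ y ∈ bdM n, rdist g x y = rdist g' x y)
    {p : E n} (hp : p ∈ bdM n)
    (h : (IsotropicAt g p ∧ IsotropicAt g' p) ∨ ProportionalOnSpheres g g' p) :
    ∃ ψ : E n → E n, IsDiffeo ψ (M n) (M n) ∧ (∀ x ∈ bdM n, ψ x = x) ∧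
      ∀ x ∈ M n, pull g' ψ x = g x :=
  Pool.Agent.V5helper78.EM.result_iso hn hg hg' hd hp h

end Pool.Agent.Results.MP_07cd05_gt.IsotropicAtBoundaryPoint
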