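import Pool.Agent.V5helper78.EM.Brd

/-!
# Isometries are the maps with the least mean length of the unit vectors

Let `g` be a simple metric and `g'` a Riemannian metric on the closed unit ball `M` of `ℝ^n`, `n ≥ 2`, with
`d_g ≤ d_{g'}` for all pairs of boundary points. Let `ψ : M → M` be a smooth map which fixes the boundary. Then
the mean of `|dψ v|_{g'}` over the unit sphere bundle of `g` is at least `1`. If it is `1` and `g'` is simple,
then `ψ` is a diffeomorphism and an isometry of `(M, g)` onto `(M, g')`.

The proof uses the formula of Santaló (change of variables to the pairs of end points of the maximal geodesics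
of `g`): the integral of `|dψ v|_{g'}` is an integral of the `g'`-lengths of the images of the geodesics of `g`
between boundary points. In the case of equality, these images are minimizing for `g'`. This implies that `ψ`
is an immersion, that the geodesics of `ψ^*g'` are those of `g` up to the parametrization, and that the two
metrics agree at the boundary, so they are equal.
-/

open Set Metric
open scoped ContDiff
open Pool.Agent.Q176.SM Pool.Agent.V5helper78.ML

namespace Pool.Agent.Results.MP_07cd05_gt.MeanLengthOfMaps

/-- Let `n ≥ 2`, let `g` be a simple metric and `g'` a Riemannian metric on the closed unit ball `M` of `ℝ^n`,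
with `d_g(x, y) ≤ d_{g'}(x, y)` for all `x`, `y` in `∂M`, and let `ψ : M → M` be a smooth map with `ψ(x) = x`
for all `x` in `∂M`. Then the integral over `(M, g)` of the mean of `|dψ v|_{g'}` over the unit vectors of `g`
is at least the volume of `(M, g)`. If `g'` is simple and equality holds, then `ψ` is a diffeomorphism of `M`
and `ψ^*g' = g`. -/
theorem result {n : ℕ} (hn : 2 ≤ n) {g g' : E n → E n → E n → ℝ} (hg : IsSimple g)
    (hg' : IsMetric g') (hd : ∀ x ∈ bdM n, ∀ y ∈ bdM n, rdist g x y ≤ rdist g' x y)
    {ψ : E n → E n} (hψ : ContDiffOn ℝ ∞ ψ (M n)) (hM : MapsTo ψ (M n) (M n))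
    (hb : ∀ x ∈ bdM n, ψ x = x) :
    vol g ≤ ∫ x in M n, mean g (pull g' ψ) x * dens g x ∧
      (IsSimple g' → ∫ x in M n, mean g (pull g' ψ) x * dens g x ≤ vol g →
        IsDiffeo ψ (M n) (M n) ∧ ∀ x ∈ M n, pull g' ψ x = g x) :=
  Pool.Agent.V5helper78.EM.result_maps hn hg hg' hd hψ hM hb

end Pool.Agent.Results.MP_07cd05_gt.MeanLengthOfMaps
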