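import Pool.Agent.V5helper78.EM.BrdC

/-!
# Rigidity for maps with a pull-back in a cone around the conformal class

Let `g` be a simple metric and `g'` a Riemannian metric on the closed unit ball `M` of `ℝ^n`, `n ≥ 2`, with
`d_g ≤ d_{g'}` for all pairs of boundary points. Let `ψ : M → M` be a smooth injective map which fixes the
boundary. We assume for each point `x` of `M` that the pull-back `ψ^*g'` arises from `g` at `x` by
multiplication with a positive number on a subspace of dimension at least two, or, more generally, that the mean
of `|dψ v|_{g'}` over the unit vectors of `g` at `x` is at most `1 + (J - 1) / n`, where `J` is the quotient of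
the volume densities of `ψ^*g'` and `g`. Then `vol(M, g) ≤ vol(M, g')`. If moreover `g'` is simple and the
volumes are equal (for instance, if the two metrics have the same boundary distances), then `ψ` is an isometry.

For a subspace of dimension `k ≥ 2`, the condition on the mean follows from the inequalities of Cauchy-Schwarz
and Bernoulli. The integral of the condition on the mean, together with the sharp inequality for the mean of
`|dψ v|_{g'}` (which comes from the formula of Santaló) and its case of equality, gives the result.
-/

open Set Metric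
open scoped ContDiff
open Pool.Agent.Q176.SM Pool.Agent.V5helper78.ML

namespace Pool.Agent.Results.MP_07cd05_gt.PartlyConformalMaps

/-- Let `n ≥ 2`, let `g` be a simple metric and `g'` a Riemannian metric on the closed unit ball `M` of `ℝ^n`,
with `d_g(x, y) ≤ d_{g'}(x, y)` for all `x`, `y` in `∂M`, and let `ψ : M → M` be a smooth injective map with
`ψ(x) = x` for all `x` in `∂M`. Assume that for each `x` in `M` the form `(ψ^*g')_x` arises from `g_x` by
multiplication with a number `s > 0` on a subspace of dimension at least `2` (without change on the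
`g`-orthogonal complement), or that the mean of `|dψ v|_{g'}` over the unit vectors of `g` at `x` is at most
`1 + (J - 1) / n` with `J = √(det ψ^*g' / det g)`. Then `vol g ≤ vol g'`. If moreover `g'` is simple, and
`vol g' ≤ vol g` or `d_{g'} ≤ d_g` for all pairs of boundary points, then `ψ` is a diffeomorphism of `M` and
`ψ^*g' = g`. -/
theorem result {n : ℕ} (hn : 2 ≤ n) {g g' : E n → E n → E n → ℝ} (hg : IsSimple g)
    (hg' : IsMetric g') (hd : ∀ x ∈ bdM n, ∀ y ∈ bdM n, rdist g x y ≤ rdist g' x y)
    {ψ : E n → E n} (hψ : ContDiffOn ℝ ∞ ψ (M n)) (hM : MapsTo ψ (M n) (M n))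
    (hinj : InjOn ψ (M n)) (hb : ∀ x ∈ bdM n, ψ x = x)
    (h : ∀ x ∈ M n, PartConf g (pull g' ψ) x ∨
      mean g (pull g' ψ) x ≤ 1 + (dens (pull g' ψ) x / dens g x - 1) / n) :
    vol g ≤ vol g' ∧
      (IsSimple g' → (vol g' ≤ vol g ∨ ∀ x ∈ bdM n, ∀ y ∈ bdM n, rdist g' x y ≤ rdist g x y) →
        IsDiffeo ψ (M n) (M n) ∧ ∀ x ∈ M n, pull g' ψ x = g x) :=
  Pool.Agent.V5helper78.EM.result_cone_maps hn hg hg' hd hψ hM hinj hb h

end Pool.Agent.Results.MP_07cd05_gt.PartlyConformalMaps
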