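import Pool.Agent.V5helper78.EM.Ptn

/-!
# Boundary rigidity by partner points

Let `g`, `g'` be simple metrics on the closed unit ball `M` of `ℝ^n`, `n ≥ 2`, with `d_g ≤ d_{g'}` for all pairs
of boundary points. If for each interior point `x` there is a point `x'` of `M` (without any assumption on the
dependence on `x`) with `d_{g'}(x', y) ≤ d_g(x, y)` for all boundary points `y`, then there is a diffeomorphism
`ψ` which fixes the boundary with `ψ^*g' = g`.

By the triangle inequality, the points `x` and `x'` have the same distances to the boundary points. The first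
variation at a boundary point `p` shows that `x'` is the image of `x` under `exp'_p ∘ L ∘ exp_p⁻¹` with the
linear isometry `L` which is given by the boundary distances. So `x ↦ x'` is smooth, and it maps the geodesics
of `g` between boundary points to those of `g'` with the same speed.
-/

open Set Metric
open scoped ContDiff
open Pool.Agent.Q176.SM Pool.Agent.V5helper78.ML

namespace Pool.Agent.Results.MP_07cd05_gt.PartnerPoints

/-- Let `n ≥ 2` and let `g`, `g'` be simple metrics on the closed unit ball `M` of `ℝ^n` with
`d_g(x, y) ≤ d_{g'}(x, y)` for all `x`, `y` in `∂M`. Assume that for each interior point `x` there is `x'` in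
`M` with `d_{g'}(x', y) ≤ d_g(x, y)` for all `y` in `∂M`. Then there is a diffeomorphism `ψ` of `M` with
`ψ(x) = x` for all `x` in `∂M` and `ψ^*g' = g`. -/
theorem result {n : ℕ} (hn : 2 ≤ n) {g g' : E n → E n → E n → ℝ} (hg : IsSimple g)
    (hg' : IsSimple g') (hd : ∀ x ∈ bdM n, ∀ y ∈ bdM n, rdist g x y ≤ rdist g' x y)
    (hp : ∀ x ∈ ball (0 : E n) 1, ∃ x' ∈ M n, ∀ y ∈ bdM n, rdist g' x' y ≤ rdist g x y) :
    ∃ ψ : E n → E n, IsDiffeo ψ (M n) (M n) ∧ (∀ x ∈ bdM n, ψ x = x) ∧
      ∀ x ∈ M n, pull g' ψ x = g x :=
  Pool.Agent.V5helper78.EM.result_partner hn hg hg' hd hp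

end Pool.Agent.Results.MP_07cd05_gt.PartnerPoints
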